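import Pool.Agent.X39.Near.MasterI
import Pool.Agent.X191.RO.Alg
import Pool.Agent.X191.RO.Cond

/-!
# Rohrlich's conjecture in families, the only-if direction: ALL members close to any number outside a set of dimension zero

Let `a_j(t) = α_j t + γ_j` with nonzero integers `α_j` of any signs and rational (or real) `γ_j`. If the identity
`∑ n_j {a_j(x)} = (∑ n_j) / 2` does not hold for all but finitely many real `x` in `[0, 1]`, then outside ONE set of
complex numbers `x` of Hausdorff dimension `0`, for all number fields `F ⊂ ℂ`, all `ω > 0`, `d` and `A` there are `B` and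
`T₁` such that for all `T ≥ T₁` and ALL `t ∈ F` of height at most `T` with `|t - x| ≤ T ^ (-ω)` the numbers
`∏ Γ(a_j(t)) ^ (n_j)`, `b_k ^ t`, `exp (2 π i t)` satisfy no relation of degree at most `d` with coefficients which are
polynomials of degree at most `d` in the `u_k(t) / w(t)` and in given complex numbers `ξ_i`, with coefficients in `F` of
height at most `T ^ A`, not even up to `T ^ (-B)`. In particular (`ξ = π ^ (∓ 1/2)`) the product is not a multiple of
a power of `π ^ (1/2)` by an algebraic number of bounded degree and height at most `T ^ A`; this holds at the convergents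
of all irrational real numbers in the domain outside this set, from some point on.
-/

set_option autoImplicit false

open MeasureTheory NumberField

namespace Pool.Agent.Results.MP_c2409d_nt.ApproximationsOfAllNumbers

open Pool.Agent.X39.Near (Size Dependent)

/-- The product `∏ Γ(α_j z + γ_j) ^ (n_j)`. -/
noncomputable def product {p : ℕ} (α : Fin p → ℤ) (γ : Fin p → ℝ) (n : Fin p → ℤ) (z : ℂ) : ℂ :=
  ∏ j, Complex.Gamma (α j * z + γ j) ^ n j

/-- The identity `∑ n_j {α_j x + γ_j} = (∑ n_j) / 2` fails for infinitely many real numbers `x` in `[0, 1]`. -/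
def IdentityFails {p : ℕ} (α : Fin p → ℤ) (γ : Fin p → ℝ) (n : Fin p → ℤ) : Prop :=
  {x : ℝ | (0 ≤ x ∧ x ≤ 1) ∧
    ∑ j, (n j : ℝ) * Int.fract ((α j : ℝ) * x + γ j) ≠ (∑ j, (n j : ℝ)) / 2}.Infinite

/-- The numbers `b_k` are multiplicatively independent. -/
def MulInd {s : ℕ} (b : Fin s → ℝ) : Prop := ∀ e : Fin s → ℤ, ∏ k, b k ^ e k = 1 → e = 0

/-- The functions `∏ Γ(α_j z + γ_j) ^ (n_j)`, `b_k ^ z` (`k < s`) and `exp (2 π i z)`. -/
noncomputable def value {p s : ℕ} (α : Fin p → ℤ) (γ : Fin p → ℝ) (n : Fin p → ℤ) (b : Fin s → ℝ) :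
    Unit ⊕ (Fin s ⊕ Unit) → ℂ → ℂ
  | Sum.inl _ => fun z => product α γ n z
  | Sum.inr (Sum.inl k) => fun z => (b k : ℂ) ^ z
  | Sum.inr (Sum.inr _) => fun z => Complex.exp (2 * Real.pi * Complex.I * z)

/-- the complex numbers `z` such that no `α_j z + γ_j` is a pole of `Γ` -/
def domain {p : ℕ} (α : Fin p → ℤ) (γ : Fin p → ℝ) : Set ℂ :=
  {z | ∀ j, ∀ k : ℕ, (α j : ℂ) * z + ((γ j : ℝ) : ℂ) ≠ -k}

theorem domain_open {p : ℕ} (α : Fin p → ℤ) (γ : Fin p → ℝ) : IsOpen (domain α γ) := by
  have h1 : domain α γ = ⋂ j, {z : ℂ | (Complex.Gamma ((α j : ℂ) * z + ((γ j : ℝ) : ℂ)))⁻¹ ≠ 0} := by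
    ext z
    simp only [domain, Set.mem_ofPred_eq, Set.mem_iInter, ne_eq, inv_eq_zero, Complex.Gamma_eq_zero_iff, not_exists]
  rw [h1]
  refine isOpen_iInter_of_finite fun j => ?_
  have h2 : Continuous fun z : ℂ => (Complex.Gamma ((α j : ℂ) * z + ((γ j : ℝ) : ℂ)))⁻¹ :=
    Complex.differentiable_one_div_Gamma.continuous.comp (by fun_prop)
  exact isOpen_ne_fun h2 continuous_const

/-- **Theorem.** Let `α_j ≠ 0` and `n_j` be integers and `γ_j` real numbers such that the identity
`∑ n_j {α_j x + γ_j} = (∑ n_j) / 2` fails for infinitely many real `x` in `[0, 1]`, let `b_k > 0` be multiplicatively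
independent; let `u_k`, `w` be complex polynomials, `w` without zeros on the `domain`, and `ξ_1, …, ξ_g` complex
numbers. There is a set `E` of complex numbers of Hausdorff dimension `0` such that: (1) for all `x ∈ domain` outside `E`, all
number fields `F` with an embedding `ι` in `ℂ`, all `d`, `A` and `ω > 0` there are `B`, `T₁` such that for all
`T ≥ T₁` and all `t ∈ F`, quotients of integers with conjugates at most `T`, with `|ι t - x| ≤ T ^ (-ω)`, the
values of these functions at `t` are not dependent; (2) for all irrational real `x ∈ domain` outside `E` and all `d`,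
`A` there is `B` such that the values at the convergents `t` of `x` are not dependent over `ℚ`, at the level of
the denominator, from some point on. -/
theorem result {p s q g : ℕ} (α : Fin p → ℤ) (γ : Fin p → ℝ) (n : Fin p → ℤ) (hα : ∀ j, α j ≠ 0)
    (hR : IdentityFails α γ n) (b : Fin s → ℝ) (hb : ∀ k, 0 < b k) (hm : MulInd b)
    (u : Fin q → Polynomial ℂ) (w : Polynomial ℂ) (hw : ∀ t ∈ domain α γ, w.eval t ≠ 0) (ξ : Fin g → ℂ) :
    ∃ E : Set ℂ, dimH E = 0 ∧
      (∀ x ∈ domain α γ, x ∉ E → ∀ (F : Type) [Field F] [NumberField F] (ι : F →+* ℂ)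
        (d A : ℕ) (ω : ℝ), 0 < ω → ∃ B T₁ : ℝ, ∀ T : ℝ, T₁ ≤ T → ∀ t : F, Size F T t →
          ‖ι t - x‖ ≤ T ^ (-ω) → ¬ Dependent (value α γ n b) u w ξ F ι d A B T t) ∧
      ∀ x : ℝ, Irrational x → (x : ℂ) ∈ domain α γ → (x : ℂ) ∉ E → ∀ d A : ℕ, ∃ (B : ℝ) (n₀ : ℕ), ∀ k : ℕ,
        n₀ ≤ k → ¬ Dependent (value α γ n b) u w ξ ℚ (algebraMap ℚ ℂ) d A B (x.convergent k).den
          (x.convergent k) := by
  obtain ⟨x₀, hx⟩ := Pool.Agent.X191.RO.exists_cnt α hα γ n hR
  have hv : value α γ n b = Pool.Agent.X191.RO.vv α (fun j => (γ j : ℂ)) n b := by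
    funext y z
    rcases y with _ | k | _ <;> rfl
  rw [hv]
  exact Pool.Agent.X39.Near.master (domain α γ) (domain_open α γ) _
    (fun y t ht => Pool.Agent.X191.RO.vv_an α (fun j => (γ j : ℂ)) n b hb y ht)
    (fun t ht => Pool.Agent.X191.RO.locInd hα (fun j => (γ j : ℂ)) n b hb hx hm t ht) u w hw ξ

end Pool.Agent.Results.MP_c2409d_nt.ApproximationsOfAllNumbers
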