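import Mathlib
import Pool.Agent.X191.RO.Alg
import Pool.Agent.X191.RO.Cond

/-!
# Rohrlich's conjecture in families: the only-if direction for almost all members

Let `a_j(t) = α_j t + γ_j` with nonzero integers `α_j` of any signs and rational (or real) `γ_j`. If the identity
`∑ {a_j(x)} = r / 2` of the conjecture does not hold for all but finitely many real `x` in `[0, 1]`, then for almost all
rational numbers `t` the product `Γ(a_1(t)) ⋯ Γ(a_r(t))` is not a multiple of `π ^ (r / 2)` (or any other complex number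
`ξ`) by an algebraic number of bounded degree and of height at most a power of the height of `t`. More generally for
products `∏ Γ(a_j(t)) ^ (n_j)` with integers `n_j`, and for polynomial relations between the values of such a product at
several points, together with the numbers `b_k ^ t` and `exp (2 π i t)`.

Proof: if the counts with signs of the integers among the `a_j(x)` vanish for all `x`, the sum of the sawtooth functions
has no jumps, so it is constant, and zero by Hermite's identity. If a count is not zero, then by reflection the product is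
equal to a product of Gamma functions with positive slopes, up to a rational function of `exp (2 π i z)`, and a relation
with the least number of terms between solutions of difference equations of first order gives a contradiction, by counting
the roots of the multipliers in the classes modulo `ℤ`. The passage to the values at almost all points is a theorem of the
starting library (`Pool.Agent.Y771.RP.mainS`).
-/

set_option autoImplicit false

open NumberField

namespace Pool.Agent.Results.MP_c2409d_nt.ProductsInFamilies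

/-- The product `∏ Γ(α_j z + γ_j) ^ (n_j)`. -/
noncomputable def product {p : ℕ} (α : Fin p → ℤ) (γ : Fin p → ℝ) (n : Fin p → ℤ) (z : ℂ) : ℂ :=
  ∏ j, Complex.Gamma (α j * z + γ j) ^ n j

/-- The identity `∑ n_j {α_j x + γ_j} = (∑ n_j) / 2` fails for infinitely many real numbers `x` in `[0, 1]`. -/
def IdentityFails {p : ℕ} (α : Fin p → ℤ) (γ : Fin p → ℝ) (n : Fin p → ℤ) : Prop :=
  {x : ℝ | (0 ≤ x ∧ x ≤ 1) ∧
    ∑ j, (n j : ℝ) * Int.fract ((α j : ℝ) * x + γ j) ≠ (∑ j, (n j : ℝ)) / 2}.Infinite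

/-- `y` is a root of a nonzero integer polynomial of degree at most `m` with coefficients of absolute value at
most `H`. -/
def AlgLe (m : ℕ) (H : ℝ) (y : ℂ) : Prop :=
  ∃ Q : Polynomial ℤ, Q ≠ 0 ∧ Q.natDegree ≤ m ∧ (∀ i, |(Q.coeff i : ℝ)| ≤ H) ∧ Polynomial.aeval y Q = 0

/-- The numbers `b_k` are multiplicatively independent. -/
def MulInd {s : ℕ} (b : Fin s → ℝ) : Prop := ∀ e : Fin s → ℤ, ∏ k, b k ^ e k = 1 → e = 0

/-- The functions `∏ Γ(α_j z + γ_j) ^ (n_j)`, `b_k ^ z` (`k < s`) and `exp (2 π i z)`. -/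
noncomputable def value {p s : ℕ} (α : Fin p → ℤ) (γ : Fin p → ℝ) (n : Fin p → ℤ) (b : Fin s → ℝ) :
    Unit ⊕ (Fin s ⊕ Unit) → ℂ → ℂ
  | Sum.inl _ => fun z => product α γ n z
  | Sum.inr (Sum.inl k) => fun z => (b k : ℂ) ^ z
  | Sum.inr (Sum.inr _) => fun z => Complex.exp (2 * Real.pi * Complex.I * z)

/-- `x = a / c` with integers `a`, `c` of the number field `F`, all of whose conjugates have absolute value at most `T`. -/
def HeightLe (F : Type) [Field F] [NumberField F] (T : ℝ) (x : F) : Prop :=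
  ∃ a c : 𝓞 F, c ≠ 0 ∧ (∀ φ : F →+* ℂ, ‖φ a‖ ≤ T ∧ ‖φ c‖ ≤ T) ∧ x = a / c

/-- The `N`-tuples `t` of elements of the finite set `X` for which there is a polynomial `P` in `N (s + 2)` variables,
of degree at most `d` in each of them, with coefficients of the form `∑ ξ_i ι(c_i)`, where the `c_i` are integers of `F` all
of whose conjugates have absolute value at most `T ^ A`, such that the value of `P` at the numbers
`∏ Γ(α_j t_l + γ_j) ^ (n_j)`, `b_k ^ t_l`, `exp (2 π i t_l)`, `l < N`, is at most `T ^ (-B)` times the absolute value of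
some nonzero coefficient of `P`. -/
def Exceptional {p s g : ℕ} (N d : ℕ) (α : Fin p → ℤ) (γ : Fin p → ℝ) (n : Fin p → ℤ) (b : Fin s → ℝ) (F : Type)
    [Field F] [NumberField F] (ι : F →+* ℂ) (ξ : Fin g → ℂ) (X : Finset F) (A B T : ℝ) : Set (Fin N → F) :=
  {t | (∀ l, t l ∈ X) ∧ ∃ P : MvPolynomial (Fin N × (Unit ⊕ (Fin s ⊕ Unit))) ℂ, (∀ x, P.degreeOf x ≤ d) ∧
    (∀ u, ∃ c : Fin g → 𝓞 F, (∀ i (φ : F →+* ℂ), ‖φ (c i)‖ ≤ T ^ A) ∧ P.coeff u = ∑ i, ξ i * ι (c i)) ∧
    ∃ u₀, P.coeff u₀ ≠ 0 ∧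
      ‖MvPolynomial.aeval (fun x : Fin N × (Unit ⊕ (Fin s ⊕ Unit)) => value α γ n b x.2 (ι (t x.1))) P‖ ≤
        T ^ (-B) * ‖P.coeff u₀‖}

/-- Let `α_j ≠ 0` and `n_j` be integers and `γ_j` real numbers such that the identity `∑ n_j {α_j x + γ_j} = (∑ n_j) / 2`
fails for infinitely many real `x` in `[0, 1]`. Let `L` be a compact subset of `ℂ` on which no `Γ(α_j z + γ_j)` has a pole,
and `A`, `ε > 0` real.
(1) For every `m` there are `C`, `T₀` such that for all `T ≥ T₀`, all complex `ξ ≠ 0` and all finite sets `X` of rational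
numbers in `L` with numerators and denominators at most `T` in absolute value there are at most `C T ^ ε` elements `x` of
`X` such that `∏ Γ(α_j x + γ_j) ^ (n_j)` is `ξ` times an algebraic number of degree at most `m` and of height at most
`T ^ A`.
(2) Let `b_k > 0` be multiplicatively independent. For all `m`, `N`, `g`, `d` there are `B`, `C`, `T₀` such that for every
number field `F` of degree at most `m`, every embedding `ι`, all complex numbers `ξ_1, …, ξ_g`, all `T ≥ T₀` and every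
finite set `X` of elements of `F` in `L` of height at most `T` there are at most `C T ^ ε |X| ^ (N - 1)` exceptional
`N`-tuples of elements of `X`. -/
theorem result (p : ℕ) (α : Fin p → ℤ) (γ : Fin p → ℝ) (n : Fin p → ℤ) (hα : ∀ j, α j ≠ 0)
    (hR : IdentityFails α γ n) (L : Set ℂ) (hL : IsCompact L)
    (hLp : ∀ z ∈ L, ∀ j, ∀ k : ℕ, (α j : ℂ) * z + γ j ≠ -k) (A ε : ℝ) (hε : 0 < ε) :
    (∀ m : ℕ, ∃ C T₀ : ℝ, ∀ T : ℝ, T₀ ≤ T → ∀ ξ : ℂ, ξ ≠ 0 → ∀ X : Finset ℚ,
      (∀ x ∈ X, (x : ℂ) ∈ L ∧ |(x.num : ℝ)| ≤ T ∧ (x.den : ℝ) ≤ T) →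
        (({x : ℚ | x ∈ X ∧ ∃ y : ℂ, AlgLe m (T ^ A) y ∧ product α γ n x = ξ * y}.ncard : ℕ) : ℝ) ≤ C * T ^ ε) ∧
    ∀ (s : ℕ) (b : Fin s → ℝ), (∀ k, 0 < b k) → MulInd b → ∀ m N g d : ℕ, ∃ B C T₀ : ℝ,
      ∀ (F : Type) [Field F] [NumberField F], Module.finrank ℚ F ≤ m → ∀ (ι : F →+* ℂ) (ξ : Fin g → ℂ) (T : ℝ),
        T₀ ≤ T → ∀ X : Finset F, (∀ x ∈ X, ι x ∈ L ∧ HeightLe F T x) →
          ((Exceptional N d α γ n b F ι ξ X A B T).ncard : ℝ) ≤ C * T ^ ε * (X.card : ℝ) ^ (N - 1) := by
  obtain ⟨x₀, hx⟩ := Pool.Agent.X191.RO.exists_cnt α hα γ n hR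
  have hLV : L ⊆ Pool.Agent.X191.RO.VV α (fun j => (γ j : ℂ)) := fun z hz => hLp z hz
  refine ⟨fun m => ?_, fun s b hb hm m N g d => ?_⟩
  · obtain ⟨C, T₀, H⟩ := Pool.Agent.X191.RO.few_alg hα (fun j => (γ j : ℂ)) n hx L hL hLV m A ε hε
    refine ⟨C, T₀, fun T hT ξ hξ X hX => ?_⟩
    refine le_trans (le_of_eq ?_) (H T hT ξ hξ X hX)
    congr 2
    ext x
    constructor
    · rintro ⟨hxX, y, hy, hxy⟩
      refine ⟨hxX, ?_⟩
      change product α γ n x = _ at hxy
      have e : Pool.Agent.X191.RO.ff α (fun j => (γ j : ℂ)) n x / ξ = y := by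
        change product α γ n x / ξ = y
        rw [hxy]
        field_simp
      rw [e]
      exact hy
    · rintro ⟨hxX, hy⟩
      refine ⟨hxX, _, hy, ?_⟩
      change product α γ n x = ξ * (product α γ n x / ξ)
      field_simp
  · obtain ⟨B, C, T₀, -, -, H⟩ := Pool.Agent.Y771.RP.mainS m N g d
      (Pool.Agent.X191.RO.vv α (fun j => (γ j : ℂ)) n b) L hL
      (fun y t ht => Pool.Agent.X191.RO.vv_an α _ n b hb y (hLV ht))
      (fun t ht => Pool.Agent.X191.RO.locInd hα _ n b hb hx hm t (hLV ht)) A ε hε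
    refine ⟨B, C, T₀, fun F _ _ hF ι ξ T hT X hX => ?_⟩
    have h1 := H F hF ι ξ T hT X (fun x hx => ⟨(hX x hx).1, (hX x hx).2⟩)
    have hv : ∀ (y : Unit ⊕ (Fin s ⊕ Unit)) (z : ℂ), value α γ n b y z =
        Pool.Agent.X191.RO.vv α (fun j => (γ j : ℂ)) n b y z := by
      intro y z
      rcases y with _ | k | _ <;> rfl
    refine le_trans (le_of_eq ?_) h1
    congr 2
    ext t
    constructor
    · rintro ⟨hX', P, hP1, hP2, u₀, hu₀, hu⟩
      refine ⟨⟨fun j => ⟨(hX _ (hX' j)).1, (hX _ (hX' j)).2⟩, P, hP1, hP2, u₀, hu₀, ?_⟩, hX'⟩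
      simp only [hv] at hu
      exact hu
    · rintro ⟨⟨-, P, hP1, hP2, u₀, hu₀, hu⟩, hX'⟩
      refine ⟨hX', P, hP1, hP2, u₀, hu₀, ?_⟩
      simp only [hv]
      exact hu

end Pool.Agent.Results.MP_c2409d_nt.ProductsInFamilies
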