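import Pool.Agent.Results.MP_c2409d_nt.ApproximationsOfAllNumbers
import Pool.Agent.X174.MasterTup

/-!
# Rohrlich's conjecture in families, the only-if direction: ALL simultaneous approximations of `N` numbers

Let `a_li(t) = α_li t + γ_li` with nonzero integers `α_li` and rational (or real) `γ_li`, where for each `l ≤ N` the identity
`∑_i n_li {a_li(x)} = (∑_i n_li) / 2` fails for infinitely many real `x` in `[0, 1]`. For every `ω > 0` there is ONE set
`E ⊂ ℂ^N` of Hausdorff dimension at most `2 m (N - 1) / ω` such that for all `x ∈ ℂ^N` outside `E`, all number fields `F ⊂ ℂ` of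
degree at most `m` (for instance `ℚ`), all `d` and `A` there are `B` and `T₁` such that for all `T ≥ T₁` and ALL simultaneous
approximations `t ∈ F^N` of `x`, of height at most `T`, with `|t_l - x_l| ≤ T ^ (-ω)` for all `l`, the products
`∏_i Γ(a_li(t_l)) ^ (n_li)`, `l ≤ N`, together with the `b_lk ^ t_l` and `exp (2 π i t_l)`, satisfy no relation of degree at most
`d` with coefficients which are polynomials of degree at most `d` in the `u_lk(t_l) / w_l(t_l)` and in given complex numbers
`ξ_i` (for instance `π ^ (± 1 / 2)`), with coefficients in `F` of height at most `T ^ A`, not even up to `T ^ (-B)`. In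
particular no monomial in the `N` products is in `π ^ (ℤ / 2)` times the algebraic numbers of bounded degree and height at most
`T ^ A` of `F`. For `ω > 2 m (N - 1) / N` almost all `x ∈ ℝ^N` are outside `E`.

The case `N = 1` is the result `ApproximationsOfAllNumbers`, from which the functions are taken.
-/

set_option autoImplicit false

open MeasureTheory NumberField

namespace Pool.Agent.Results.MP_c2409d_nt.SimultaneousApproximations

open Pool.Agent.X39.Near (Size)
open Pool.Agent.X174.NearTup (DependentT)
open ApproximationsOfAllNumbers (IdentityFails MulInd value domain domain_open)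

/-- **Theorem.** Let `N ≥ 1`, `m` be natural numbers; for each `l < N` let `α_li ≠ 0` and `n_li` be integers and `γ_li` real
numbers such that the identity `∑_i n_li {α_li x + γ_li} = (∑_i n_li) / 2` fails for infinitely many real `x` in `[0, 1]`, let
`b_lk > 0` be multiplicatively independent, `u_lk`, `w_l` complex polynomials, `w_l` without zeros on the `domain`; let
`ξ_1, …, ξ_g` be complex numbers and `ω > 0`. There is a set `E ⊂ ℂ^N` of Hausdorff dimension at most `2 m (N - 1) / ω`, which
contains almost no real point if `2 m (N - 1) < N ω`, such that for all `x` outside `E` with `x_l` in the domains, all number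
fields `F` of degree at most `m` with an embedding `ι` in `ℂ` and all `d`, `A` there are `B`, `T₁` such that for all `T ≥ T₁`
and all `t ∈ F^N`, quotients of integers with conjugates at most `T`, with `|ι t_l - x_l| ≤ T ^ (-ω)` for all `l`, the values
of these functions at `t` are not dependent. -/
theorem result {N p s q g : ℕ} (hN : 1 ≤ N) (m : ℕ) (α : Fin N → Fin p → ℤ) (γ : Fin N → Fin p → ℝ)
    (n : Fin N → Fin p → ℤ) (hα : ∀ l i, α l i ≠ 0) (hR : ∀ l, IdentityFails (α l) (γ l) (n l))
    (b : Fin N → Fin s → ℝ) (hb : ∀ l k, 0 < b l k) (hm : ∀ l, MulInd (b l))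
    (u : Fin N → Fin q → Polynomial ℂ) (w : Fin N → Polynomial ℂ)
    (hw : ∀ l, ∀ t ∈ domain (α l) (γ l), (w l).eval t ≠ 0) (ξ : Fin g → ℂ) (ω : ℝ) (hω : 0 < ω) :
    ∃ E : Set (Fin N → ℂ), dimH E ≤ ENNReal.ofReal (2 * m * ((N : ℝ) - 1) / ω) ∧
      (2 * m * ((N : ℝ) - 1) < N * ω → ∀ᵐ x : Fin N → ℝ, (fun l => (x l : ℂ)) ∉ E) ∧
      ∀ x : Fin N → ℂ, (∀ l, x l ∈ domain (α l) (γ l)) → x ∉ E → ∀ (F : Type) [Field F] [NumberField F],
        Module.finrank ℚ F ≤ m → ∀ (ι : F →+* ℂ) (d A : ℕ), ∃ B T₁ : ℝ, ∀ T : ℝ, T₁ ≤ T → ∀ t : Fin N → F,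
          (∀ l, Size F T (t l)) → (∀ l, ‖ι (t l) - x l‖ ≤ T ^ (-ω)) →
            ¬ DependentT (fun l => value (α l) (γ l) (n l) (b l)) u w ξ F ι d A B T t := by
  have hv : ∀ l, value (α l) (γ l) (n l) (b l) = Pool.Agent.X191.RO.vv (α l) (fun j => (γ l j : ℂ)) (n l) (b l) := by
    intro l
    funext y z
    rcases y with _ | k | _ <;> rfl
  refine Pool.Agent.X174.NearTup.masterTup hN m _ (fun l => domain_open (α l) (γ l)) _
    (fun l y t ht => ?_) (fun l t ht => ?_) u w hw ξ hω
  · rw [hv]
    exact Pool.Agent.X191.RO.vv_an (α l) (fun j => (γ l j : ℂ)) (n l) (b l) (hb l) y ht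
  · rw [hv]
    obtain ⟨x₀, hx⟩ := Pool.Agent.X191.RO.exists_cnt (α l) (hα l) (γ l) (n l) (hR l)
    exact Pool.Agent.X191.RO.locInd (hα l) (fun j => (γ l j : ℂ)) (n l) (b l) (hb l) hx (hm l) t ht

end Pool.Agent.Results.MP_c2409d_nt.SimultaneousApproximations
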