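import Pool.Agent.X283.DA.PackFam
import Pool.Agent.Results.MP_c2409d_nt.ProductsInFamilies

/-!
# Rohrlich's conjecture: the only-if direction at all points with denominators in sparse sequences

For products of Gamma values whose fractional part identity fails, there are no relations of bounded complexity at any
of the points `t` with a given denominator `q`, for all `q` near the members of sequences `τ ^ κ_n`, `n ^ τ` (all `τ`
outside a small set), and for all denominators `q` of (inhomogeneous, simultaneous) approximations of almost all points.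

Proof: by `ProductsInFamilies` the number of `q ≤ Q` for which there is an exceptional point with denominator `q` is
`O(Q ^ ε)`. The passage to the sequences is the covering argument of `Pool.Agent.X283.DA`; the exponents `ε = 1 / (k + 1)` are
combined by the intersection of the exceptional sets.
-/

set_option autoImplicit false

open NumberField Filter Topology MeasureTheory

namespace Pool.Agent.Results.MP_c2409d_nt.SparseDenominators

open Pool.Agent.X283.DA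
open Pool.Agent.Results.MP_c2409d_nt.ProductsInFamilies (IdentityFails MulInd Exceptional HeightLe)

/-- A product `∏ Γ(α_j z + γ_j) ^ (n_j)` for which the identity of the conjecture fails for infinitely many real
`x` in `[0, 1]`, multiplicatively independent numbers `b_k > 0`, a number field `F` with an embedding `ι`, complex numbers
`ξ_1, …, ξ_g`, a compact set `K` without poles of the `Γ(α_j z + γ_j)`, and natural numbers `d`, `A`. -/
structure Datum where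
  (p : ℕ) (α : Fin p → ℤ) (γ : Fin p → ℝ) (n : Fin p → ℤ)
  (hα : ∀ j, α j ≠ 0) (hR : IdentityFails α γ n)
  (s : ℕ) (b : Fin s → ℝ) (hb : ∀ k, 0 < b k) (hm : MulInd b)
  (F : Type) [fld : Field F] [nf : NumberField F] (ι : F →+* ℂ)
  (g : ℕ) (ξ : Fin g → ℂ)
  (K : Set ℂ) (hK : IsCompact K) (hp : ∀ z ∈ K, ∀ j, ∀ k : ℕ, (α j : ℂ) * z + γ j ≠ -k)
  (d A : ℕ)

attribute [instance] Datum.fld Datum.nf

/-- `q` is the denominator of `t`: the least positive integer such that `q t` is integral. -/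
def IsDen {F : Type} [Field F] (q : ℕ) (t : F) : Prop :=
  0 < q ∧ IsIntegral ℤ ((q : F) * t) ∧ ∀ r : ℕ, 0 < r → IsIntegral ℤ ((r : F) * t) → q ≤ r

/-- There is a polynomial `P` of degree at most `d` in each of its `s + 2` variables, with coefficients of the form
`∑ ξ_i ι(c_i)`, where the `c_i` are integers of `F` all of whose conjugates have absolute value at most `T`, such that
the value of `P` at the numbers `∏ Γ(α_j t + γ_j) ^ (n_j)`, `b_k ^ t`, `exp (2 π i t)` is at most `T ^ (-B)` times the absolute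
value of some nonzero coefficient of `P`. -/
def Related (D : Datum) (B T : ℝ) (t : D.F) : Prop :=
  (fun _ : Fin 1 => t) ∈ Exceptional 1 D.d D.α D.γ D.n D.b D.F D.ι D.ξ {t} 1 B T

/-- No `t` in `F` with denominator `q`, with `ι t` in `K` and such that all conjugates of `q t` have absolute value
at most `q ^ (A + 1)`, is related with `T = q ^ (A + 1)`. -/
def Free (D : Datum) (B : ℝ) (q : ℕ) : Prop :=
  ∀ t : D.F, IsDen q t → D.ι t ∈ D.K → (∀ φ : D.F →+* ℂ, ‖φ ((q : D.F) * t)‖ ≤ (q : ℝ) ^ (D.A + 1)) →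
    ¬ Related D B ((q : ℝ) ^ (D.A + 1)) t

/-- the number of denominators with exceptional points -/
theorem sparse (D : Datum) {s : ℝ} (hs : 0 < s) : ∃ B : ℝ, Sparse {q | ¬ Free D B q} s := by
  classical
  have hA : (0 : ℝ) < (D.A : ℝ) + 1 := by positivity
  obtain ⟨-, H⟩ := ProductsInFamilies.result D.p D.α D.γ D.n D.hα D.hR D.K D.hK D.hp 1
    (s / ((D.A : ℝ) + 1)) (by positivity)
  obtain ⟨B, C, T₀, H⟩ := H D.s D.b D.hb D.hm (Module.finrank ℚ D.F) 1 D.g D.d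
  set B₀ : ℝ := max B 0 with hB₀
  have hB0 : 0 ≤ B₀ := le_max_right _ _
  have hBB : B ≤ B₀ := le_max_left _ _
  refine ⟨2 * B₀, sparse_of_dyadic hs.le fun ε hε => ⟨|C| * 2 ^ s, max 2 ⌈T₀⌉₊, fun K hK => ?_⟩⟩
  have hK2 : 2 ≤ K := (le_max_left _ _).trans hK
  have hKT : T₀ ≤ K := (Nat.le_ceil T₀).trans (by exact_mod_cast (le_max_right _ _).trans hK)
  have hK2r : (2 : ℝ) ≤ K := by exact_mod_cast hK2
  obtain ⟨T, hT⟩ : ∃ T : ℝ, T = (2 * (K : ℝ)) ^ (D.A + 1) := ⟨_, rfl⟩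
  have hT2 : 2 * (K : ℝ) ≤ T := by
    rw [hT]
    exact le_self_pow₀ (by linarith) (by omega)
  have hTT : T₀ ≤ T := by linarith
  have hT1 : 1 ≤ T := by linarith
  obtain ⟨S, hSdef⟩ : ∃ S : Set ℕ, S = {n : ℕ | n ∈ {q | ¬ Free D (2 * B₀) q} ∧ K < n ∧ n ≤ 2 * K} := ⟨_, rfl⟩
  rw [← hSdef]
  have hS : S.Finite := by
    rw [hSdef]
    exact (Set.finite_Iic (2 * K)).subset fun n hn => hn.2.2
  have hch : ∀ q ∈ S, ∃ t : D.F, IsDen q t ∧ D.ι t ∈ D.K ∧
      (∀ φ : D.F →+* ℂ, ‖φ ((q : D.F) * t)‖ ≤ (q : ℝ) ^ (D.A + 1)) ∧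
      Related D (2 * B₀) ((q : ℝ) ^ (D.A + 1)) t := by
    intro q hq
    rw [hSdef] at hq
    have h1 : ¬ Free D (2 * B₀) q := hq.1
    unfold Free at h1
    push Not at h1
    obtain ⟨t, h2, h3, h4, h5⟩ := h1
    exact ⟨t, h2, h3, h4, h5⟩
  have hSr : ∀ q ∈ S, K < q ∧ q ≤ 2 * K := fun q hq => by
    rw [hSdef] at hq
    exact hq.2
  choose! t ht using hch
  have hqT : ∀ q ∈ S, (q : ℝ) ^ (D.A + 1) ≤ T := by
    intro q hq
    rw [hT]
    have h1 : (q : ℝ) ≤ 2 * K := by exact_mod_cast (hSr q hq).2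
    exact pow_le_pow_left₀ (by positivity) h1 _
  have hq1 : ∀ q ∈ S, 1 ≤ (q : ℝ) ^ (D.A + 1) := by
    intro q hq
    have h1 : (1 : ℝ) ≤ q := by
      have := (hSr q hq).1
      exact_mod_cast (by omega : 1 ≤ q)
    exact one_le_pow₀ h1
  set X : Finset D.F := hS.toFinset.image t with hX
  have hXm : ∀ q ∈ S, t q ∈ X := fun q hq => Finset.mem_image_of_mem t (hS.mem_toFinset.2 hq)
  have hXh : ∀ x ∈ X, D.ι x ∈ D.K ∧ HeightLe D.F T x := by
    intro x hx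
    obtain ⟨q, hq, rfl⟩ := Finset.mem_image.1 hx
    have hqS : q ∈ S := hS.mem_toFinset.1 hq
    obtain ⟨h1, h2, h3, -⟩ := ht q hqS
    refine ⟨h2, ⟨⟨(q : D.F) * t q, h1.2.1⟩, (q : 𝓞 D.F), ?_, fun φ => ⟨?_, ?_⟩, ?_⟩⟩
    · have := h1.1
      exact_mod_cast this.ne'
    · exact (h3 φ).trans (hqT q hqS)
    · have h7 : (((q : 𝓞 D.F) : D.F)) = (q : D.F) := map_natCast (algebraMap (𝓞 D.F) D.F) q
      have h4 : φ (((q : 𝓞 D.F) : D.F)) = (q : ℂ) := by
        rw [h7, map_natCast]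
      rw [h4, Complex.norm_natCast]
      have h5 : (q : ℝ) ≤ 2 * K := by exact_mod_cast (hSr q hqS).2
      linarith
    · have h6 : (q : D.F) ≠ 0 := by
        have := h1.1
        exact_mod_cast this.ne'
      have h7 : (((q : 𝓞 D.F) : D.F)) = (q : D.F) := map_natCast (algebraMap (𝓞 D.F) D.F) q
      rw [h7]
      change t q = (q : D.F) * t q / q
      field_simp
  have h1 := H D.F le_rfl D.ι D.ξ T hTT X hXh
  rw [Nat.sub_self, pow_zero, mul_one] at h1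
  have hfin : (Exceptional 1 D.d D.α D.γ D.n D.b D.F D.ι D.ξ X 1 B T).Finite := by
    refine (Set.Finite.pi' (fun _ : Fin 1 => X.finite_toSet)).subset ?_
    intro f hf l
    exact hf.1 l
  have h2 : S.ncard ≤ (Exceptional 1 D.d D.α D.γ D.n D.b D.F D.ι D.ξ X 1 B T).ncard := by
    refine Set.ncard_le_ncard_of_injOn (fun q => fun _ : Fin 1 => t q) ?_ ?_ hfin
    · intro q hq
      obtain ⟨-, P, hP1, hP2, u₀, hu₀, hu⟩ := (ht q hq).2.2.2
      refine ⟨fun _ => hXm q hq, P, hP1, fun u => ?_, u₀, hu₀, hu.trans ?_⟩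
      · obtain ⟨c, hc1, hc2⟩ := hP2 u
        refine ⟨c, fun i φ => (hc1 i φ).trans ?_, hc2⟩
        exact Real.rpow_le_rpow (by linarith [hq1 q hq]) (hqT q hq) (by norm_num)
      · apply mul_le_mul_of_nonneg_right _ (norm_nonneg _)
        have h3 : T ≤ ((q : ℝ) ^ (D.A + 1)) ^ 2 := by
          have h4 : (K : ℝ) + 1 ≤ q := by exact_mod_cast (hSr q hq).1
          have h6 : 2 * (K : ℝ) ≤ (q : ℝ) ^ 2 := by nlinarith
          calc T = (2 * (K : ℝ)) ^ (D.A + 1) := hT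
            _ ≤ ((q : ℝ) ^ 2) ^ (D.A + 1) := pow_le_pow_left₀ (by positivity) h6 _
            _ = ((q : ℝ) ^ (D.A + 1)) ^ 2 := pow_right_comm _ _ _
        have h5 : 0 ≤ (q : ℝ) ^ (D.A + 1) := by linarith [hq1 q hq]
        calc ((q : ℝ) ^ (D.A + 1)) ^ (-(2 * B₀)) = (((q : ℝ) ^ (D.A + 1)) ^ 2) ^ (-B₀) := by
              rw [← Real.rpow_natCast ((q : ℝ) ^ (D.A + 1)) 2, ← Real.rpow_mul h5]
              congr 1
              push_cast
              ring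
          _ ≤ T ^ (-B₀) := Real.rpow_le_rpow_of_nonpos (by linarith) h3 (by linarith)
          _ ≤ T ^ (-B) := Real.rpow_le_rpow_of_exponent_le hT1 (by linarith)
    · intro q hq q' hq' he
      have he' : t q = t q' := congrFun he 0
      obtain ⟨h3, -⟩ := ht q hq
      obtain ⟨h4, -⟩ := ht q' hq'
      apply le_antisymm
      · exact h3.2.2 q' h4.1 (by rw [he']; exact h4.2.1)
      · exact h4.2.2 q h3.1 (by rw [← he']; exact h3.2.1)
  have hK1 : (1 : ℝ) ≤ K := by linarith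
  calc ((S.ncard : ℕ) : ℝ)
      ≤ ((Exceptional 1 D.d D.α D.γ D.n D.b D.F D.ι D.ξ X 1 B T).ncard : ℝ) := by exact_mod_cast h2
    _ ≤ C * T ^ (s / ((D.A : ℝ) + 1)) := h1
    _ ≤ |C| * T ^ (s / ((D.A : ℝ) + 1)) :=
        mul_le_mul_of_nonneg_right (le_abs_self C) (Real.rpow_nonneg (by linarith) _)
    _ = |C| * 2 ^ s * (K : ℝ) ^ s := by
        rw [hT, ← Real.rpow_natCast, ← Real.rpow_mul (by positivity), mul_assoc,
          ← Real.mul_rpow (by norm_num) (by positivity)]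
        congr 2
        push_cast
        field_simp
    _ ≤ |C| * 2 ^ s * (K : ℝ) ^ (s + ε) := by
        apply mul_le_mul_of_nonneg_left _ (by positivity)
        exact Real.rpow_le_rpow_of_exponent_le hK1 (by linarith)

/-- the limit of the exponents `1 / (k + 1)` -/
theorem packB {Γ : Type} [Countable Γ] (Good : ℕ → Γ → ℕ → Prop)
    (h : ∀ k c, Sparse {q | ¬ Good k c q} (1 / ((k : ℝ) + 1))) :
    (∀ (κ : ℕ → ℝ) (θ : ℝ), Tendsto (fun n : ℕ => κ n / Real.log n) atTop atTop → 0 ≤ θ → θ < 1 →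
      ∃ E : Set ℝ, dimH E = 0 ∧ ∀ τ : ℝ, 1 < τ → τ ∉ E →
        ∃ k, ∀ c, AllNear (Good k c) (fun n => τ ^ κ n) θ) ∧
    (∀ θ a : ℝ, 0 ≤ θ → θ < 1 → 0 < a → ∃ E : Set ℝ, dimH E ≤ ENNReal.ofReal (1 / a / (1 - θ)) ∧
      ∀ τ : ℝ, a ≤ τ → τ ∉ E → ∃ k, ∀ c, AllNear (Good k c) (fun n => (n : ℝ) ^ τ) θ) ∧
    (∀ (d : ℕ) (θ y : Fin d → ℝ), (∀ j, 0 ≤ θ j) → 0 < ∑ j, θ j →
      ∀ᵐ x : Fin d → ℝ, ∃ k, ∀ c, AllDenominators (Good k c) x y θ) ∧
    (∀ θ y : ℝ, 0 ≤ θ → ∃ E : Set ℝ, dimH E ≤ ENNReal.ofReal (1 / (1 + θ)) ∧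
      ∀ x : ℝ, x ∉ E → ∃ k, ∀ c, ∃ q₀ : ℕ, ∀ q : ℕ, q₀ ≤ q →
        (∃ p : ℤ, |(q : ℝ) * x - p - y| ≤ (q : ℝ) ^ (-θ)) → Good k c q) := by
  have hp := fun k => pack_family (Good k) (s := 1 / ((k : ℝ) + 1)) (by positivity) (h k)
  have hlim : Tendsto (fun k : ℕ => 1 / ((k : ℝ) + 1)) atTop (𝓝 0) := tendsto_one_div_add_atTop_nhds_zero_nat
  refine ⟨fun κ θ hκ hθ hθ1 => ?_, fun θ a hθ hθ1 ha => ?_, fun d θ y hθ hsum => ?_, fun θ y hθ => ?_⟩
  · choose E hE1 hE2 using fun k => ((hp k).1 κ θ hκ hθ hθ1).1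
    refine ⟨⋂ k, E k, ?_, fun τ hτ hτE => ?_⟩
    · have h1 : Tendsto (fun k : ℕ => ENNReal.ofReal (1 / ((k : ℝ) + 1) / (1 - θ))) atTop
          (𝓝 (ENNReal.ofReal (0 / (1 - θ)))) := ENNReal.tendsto_ofReal (hlim.div_const _)
      have h2 : dimH (⋂ k, E k) ≤ ENNReal.ofReal (0 / (1 - θ)) :=
        ge_of_tendsto' h1 fun k => (dimH_mono (Set.iInter_subset E k)).trans (hE1 k)
      rw [zero_div, ENNReal.ofReal_zero] at h2
      exact le_antisymm h2 bot_le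
    · rw [Set.mem_iInter] at hτE
      push Not at hτE
      obtain ⟨k, hk⟩ := hτE
      exact ⟨k, hE2 k τ hτ hk⟩
  · choose E hE1 hE2 using fun k => ((hp k).2.1 θ hθ hθ1).1 a ha
    refine ⟨⋂ k, E k, ?_, fun τ hτ hτE => ?_⟩
    · have h1 : Tendsto (fun k : ℕ => ENNReal.ofReal ((1 / ((k : ℝ) + 1) + 1 / a) / (1 - θ))) atTop
          (𝓝 (ENNReal.ofReal ((0 + 1 / a) / (1 - θ)))) :=
        ENNReal.tendsto_ofReal ((hlim.add_const _).div_const _)
      rw [zero_add] at h1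
      exact ge_of_tendsto' h1 fun k => (dimH_mono (Set.iInter_subset E k)).trans (hE1 k)
    · rw [Set.mem_iInter] at hτE
      push Not at hτE
      obtain ⟨k, hk⟩ := hτE
      exact ⟨k, hE2 k τ hτ hk⟩
  · obtain ⟨k, hk⟩ : ∃ k : ℕ, 1 / ((k : ℝ) + 1) < ∑ j, θ j := exists_nat_one_div_lt hsum
    filter_upwards [(hp k).2.2.1 d θ y hθ hk] with x hx
    exact ⟨k, hx⟩
  · choose E hE1 hE2 using fun k => (hp k).2.2.2 θ y hθ
    refine ⟨⋂ k, E k, ?_, fun x hxE => ?_⟩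
    · have h1 : Tendsto (fun k : ℕ => ENNReal.ofReal ((1 + 1 / ((k : ℝ) + 1)) / (1 + θ))) atTop
          (𝓝 (ENNReal.ofReal ((1 + 0) / (1 + θ)))) :=
        ENNReal.tendsto_ofReal ((hlim.const_add _).div_const _)
      rw [add_zero] at h1
      exact ge_of_tendsto' h1 fun k => (dimH_mono (Set.iInter_subset E k)).trans (hE1 k)
    · rw [Set.mem_iInter] at hxE
      push Not at hxE
      obtain ⟨k, hk⟩ := hxE
      exact ⟨k, hE2 k x hk⟩

/-- Let `D c` be countably many data.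
(1) Let `κ_n / log n → ∞` and `0 ≤ θ < 1`. For all `τ > 1` outside a set of Hausdorff dimension `0` and all `c` there is `B`
such that all `q` with `|q - τ ^ κ_n| ≤ τ ^ (θ κ_n)` are free, for all large `n`.
(2) The same for `n ^ τ` for all `τ ≥ a > 0` outside a set of Hausdorff dimension at most `1 / (a (1 - θ))`.
(3) Let `y, θ ∈ ℝ ^ d`, `θ_j ≥ 0`, not all zero. For almost all `x ∈ ℝ ^ d` and all `c` there is `B` such that all large `q` with
`‖q x_j - y_j‖ ≤ q ^ (-θ_j)` (distance to the integers) for all `j` are free.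
(4) `d = 1`, `θ ≥ 0`: the same for all real `x` outside a set of Hausdorff dimension at most `1 / (1 + θ)`. -/
theorem result (Γ : Type) [Countable Γ] (D : Γ → Datum) :
    (∀ (κ : ℕ → ℝ) (θ : ℝ), Tendsto (fun n : ℕ => κ n / Real.log n) atTop atTop → 0 ≤ θ → θ < 1 →
      ∃ E : Set ℝ, dimH E = 0 ∧ ∀ τ : ℝ, 1 < τ → τ ∉ E →
        ∀ c, ∃ B : ℝ, AllNear (Free (D c) B) (fun n => τ ^ κ n) θ) ∧
    (∀ θ a : ℝ, 0 ≤ θ → θ < 1 → 0 < a → ∃ E : Set ℝ, dimH E ≤ ENNReal.ofReal (1 / a / (1 - θ)) ∧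
      ∀ τ : ℝ, a ≤ τ → τ ∉ E → ∀ c, ∃ B : ℝ, AllNear (Free (D c) B) (fun n => (n : ℝ) ^ τ) θ) ∧
    (∀ (d : ℕ) (θ y : Fin d → ℝ), (∀ j, 0 ≤ θ j) → 0 < ∑ j, θ j →
      ∀ᵐ x : Fin d → ℝ, ∀ c, ∃ B : ℝ, AllDenominators (Free (D c) B) x y θ) ∧
    (∀ θ y : ℝ, 0 ≤ θ → ∃ E : Set ℝ, dimH E ≤ ENNReal.ofReal (1 / (1 + θ)) ∧
      ∀ x : ℝ, x ∉ E → ∀ c, ∃ (B : ℝ) (q₀ : ℕ), ∀ q : ℕ, q₀ ≤ q →
        (∃ p : ℤ, |(q : ℝ) * x - p - y| ≤ (q : ℝ) ^ (-θ)) → Free (D c) B q) := by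
  choose B hB using fun (k : ℕ) (c : Γ) => sparse (D c) (s := 1 / ((k : ℝ) + 1)) (by positivity)
  obtain ⟨h1, h2, h3, h4⟩ := packB (fun k c => Free (D c) (B k c)) hB
  refine ⟨fun κ θ hκ hθ hθ1 => ?_, fun θ a hθ hθ1 ha => ?_, fun d θ y hθ hsum => ?_, fun θ y hθ => ?_⟩
  · obtain ⟨E, hE1, hE2⟩ := h1 κ θ hκ hθ hθ1
    refine ⟨E, hE1, fun τ hτ hτE c => ?_⟩
    obtain ⟨k, hk⟩ := hE2 τ hτ hτE
    exact ⟨B k c, hk c⟩
  · obtain ⟨E, hE1, hE2⟩ := h2 θ a hθ hθ1 ha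
    refine ⟨E, hE1, fun τ hτ hτE c => ?_⟩
    obtain ⟨k, hk⟩ := hE2 τ hτ hτE
    exact ⟨B k c, hk c⟩
  · filter_upwards [h3 d θ y hθ hsum] with x hx c
    obtain ⟨k, hk⟩ := hx
    exact ⟨B k c, hk c⟩
  · obtain ⟨E, hE1, hE2⟩ := h4 θ y hθ
    refine ⟨E, hE1, fun x hx c => ?_⟩
    obtain ⟨k, hk⟩ := hE2 x hx
    exact ⟨B k c, hk c⟩

end Pool.Agent.Results.MP_c2409d_nt.SparseDenominators
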